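import Pool.Agent.MNU.StmtsU

set_option autoImplicit false

namespace Pool.Agent.MNU.H90

open Polynomial NumberField
open Pool.Agent.MNT

theorem bcj (BC1 : UBT.BC1Stmt) (BC2 : UBT.BC2Stmt) : BcjStmt := by
  intro K L _ _ _ _ φ C C' hf c
  obtain ⟨f', odd', sq'⟩ := C'
  simp only at hf
  subst hf
  have _ : Fact (Odd (C.f.map φ).natDegree) := ⟨odd'⟩
  have hdR : IsDedekindDomain (H58Q.Q K C.f) := isDed C
  have hdS : IsDedekindDomain (H58Q.Q L (C.f.map φ)) := by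
    obtain ⟨g, hg⟩ := odd'
    exact H58Q.isDedekind hg sq' two_ne_zero
  exact BC2 (H58Q.Q K C.f) (H58Q.Q L (C.f.map φ)) (H58Q.Q.map φ C.f)
    (H58Q.Q.map_injective φ C.f φ.injective) (fun I hI h => BC1 K L φ C.f C.odd I hI h) c

end Pool.Agent.MNU.H90
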